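import Mathlib

/-!
# MP_4223bd_al

In type `B₂` the numerator `N_α = (q)_α² 𝔍_α` for `α = 2α₁ + 2α₂` is
`1 + q + 3q² + 2q³ + 5q⁴ + 2q⁵ + 3q⁶ + q⁷ + q⁸`, which is not unimodal.
-/

namespace Pool.Agent.Results.MP_4223bd_al.NotUnimodalB2

open Polynomial

/-- The invariant form on the root lattice, in the basis of simple roots, of the root system
with Cartan matrix `A` (`A i j = ⟨α_i, α_j^∨⟩`) and `d j = (α_j, α_j) / 2`. -/
def form {n : ℕ} (A : Matrix (Fin n) (Fin n) ℤ) (d : Fin n → ℕ) (α β : Fin n → ℕ) : ℤ :=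
  ∑ i, ∑ j, (α i : ℤ) * (A i j * (d j : ℤ)) * (β j : ℤ)

/-- `(q)_α = ∏_i ∏_{j=1}^{a_i} (1 - q^{d_i j})` as a rational function in `q`. -/
noncomputable def qfac {n : ℕ} (d : Fin n → ℕ) (α : Fin n → ℕ) : RatFunc ℚ :=
  ∏ i, ∏ j ∈ Finset.range (α i), (1 - RatFunc.X ^ (d i * (j + 1)))

/-- The defining recursion of the functions `𝔍_α`. -/
def IsJ {n : ℕ} (A : Matrix (Fin n) (Fin n) ℤ) (d : Fin n → ℕ)
    (J : (Fin n → ℕ) → RatFunc ℚ) : Prop :=
  J 0 = 1 ∧ ∀ α : Fin n → ℕ,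
    J α = ∑ β ∈ Finset.Iic α, RatFunc.X ^ (form A d β β / 2) / qfac d (α - β) * J β

/-- Unimodality of the coefficient sequence of a polynomial. -/
def Unimodal (N : ℤ[X]) : Prop :=
  ∃ m : ℕ, (∀ i j, i ≤ j → j ≤ m → N.coeff i ≤ N.coeff j) ∧
    (∀ i j, m ≤ i → i ≤ j → j ≤ N.natDegree → N.coeff j ≤ N.coeff i)

/-- the half-lengths of the simple roots of `B₂` (first simple root long, second short) -/
def dB : Fin 2 → ℕ := ![2, 1]

theorem sum_Iic (a b : ℕ) (f : (Fin 2 → ℕ) → RatFunc ℚ) :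
    ∑ β ∈ Finset.Iic (![a, b] : Fin 2 → ℕ), f β =
      ∑ i ∈ Finset.range (a + 1), ∑ j ∈ Finset.range (b + 1), f ![i, j] := by
  rw [← Finset.sum_product']
  refine Finset.sum_bij' (fun β _ => (β 0, β 1)) (fun p _ => ![p.1, p.2]) ?_ ?_ ?_ ?_ ?_
  · intro β hβ
    rw [Finset.mem_Iic] at hβ
    have h0 := hβ 0
    have h1 := hβ 1
    simp at h0 h1
    simp only [Finset.mem_product, Finset.mem_range]
    omega
  · intro p hp
    simp only [Finset.mem_product, Finset.mem_range] at hp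
    rw [Finset.mem_Iic]
    intro i
    fin_cases i
    · simp; omega
    · simp; omega
  · intro β _
    ext i
    fin_cases i <;> simp
  · intro p _
    simp
  · intro β _
    congr 1
    ext i
    fin_cases i <;> simp

theorem form_B (a b : ℕ) :
    form (CartanMatrix.B 2) dB ![a, b] ![a, b] / 2 = (a : ℤ) ^ 2 + ((a : ℤ) - b) ^ 2 := by
  have : form (CartanMatrix.B 2) dB ![a, b] ![a, b] = 2 * ((a : ℤ) ^ 2 + ((a : ℤ) - b) ^ 2) := by
    simp [form, dB, CartanMatrix.B, Fin.sum_univ_two]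
    ring
  rw [this]
  simp

theorem X_pow_ne {k : ℕ} (hk : 0 < k) : (1 - RatFunc.X ^ k : RatFunc ℚ) ≠ 0 := by
  intro h
  have h2 : (RatFunc.X ^ k : RatFunc ℚ) = 1 := (sub_eq_zero.mp h).symm
  have h3 : (algebraMap ℚ[X] (RatFunc ℚ)) (X ^ k) = algebraMap ℚ[X] (RatFunc ℚ) 1 := by
    simp [RatFunc.algebraMap_X, h2]
  have h4 := RatFunc.algebraMap_injective ℚ h3
  have h5 := congrArg Polynomial.natDegree h4
  simp at h5
  omega

theorem qfac_ne {n : ℕ} (d : Fin n → ℕ) (hd : ∀ i, 0 < d i) (α : Fin n → ℕ) : qfac d α ≠ 0 := by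
  unfold qfac
  refine Finset.prod_ne_zero_iff.mpr fun i _ => Finset.prod_ne_zero_iff.mpr fun j _ => ?_
  exact X_pow_ne (Nat.mul_pos (hd i) (Nat.succ_pos j))

theorem exists_unique_J {n : ℕ} (A : Matrix (Fin n) (Fin n) ℤ) (d : Fin n → ℕ)
    (hpos : ∀ α : Fin n → ℕ, α ≠ 0 → 0 < form A d α α / 2) :
    ∃! J : (Fin n → ℕ) → RatFunc ℚ, IsJ A d J := by
  classical
  have hne : ∀ α : Fin n → ℕ, α ≠ 0 → (1 - RatFunc.X ^ (form A d α α / 2) : RatFunc ℚ) ≠ 0 := by
    intro α hα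
    obtain ⟨k, hk⟩ := Int.eq_ofNat_of_zero_le (hpos α hα).le
    rw [hk, zpow_natCast]
    apply X_pow_ne
    have := hpos α hα
    omega
  have step : ∀ (J : (Fin n → ℕ) → RatFunc ℚ) (α : Fin n → ℕ), α ≠ 0 →
      (J α = ∑ β ∈ Finset.Iic α, RatFunc.X ^ (form A d β β / 2) / qfac d (α - β) * J β ↔
       J α = (1 - RatFunc.X ^ (form A d α α / 2))⁻¹ *
        ∑ β ∈ Finset.Iio α, RatFunc.X ^ (form A d β β / 2) / qfac d (α - β) * J β) := by
    intro J α hα
    rw [← Finset.Iio_insert, Finset.sum_insert (by simp)]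
    have h1 : qfac d (α - α) = 1 := by simp [qfac]
    rw [h1, div_one]
    have h2 := hne α hα
    generalize (∑ β ∈ Finset.Iio α,
      RatFunc.X ^ (form A d β β / 2) / qfac d (α - β) * J β) = S
    constructor
    · intro h
      field_simp
      linear_combination h
    · intro h
      have h3 : (1 - RatFunc.X ^ (form A d α α / 2)) * J α = S := by
        rw [h, ← mul_assoc, mul_inv_cancel₀ h2, one_mul]
      linear_combination h3
  let J0 : (Fin n → ℕ) → RatFunc ℚ := WellFounded.fix (wellFounded_lt (α := Fin n → ℕ))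
    (fun α rec => if α = 0 then 1 else (1 - RatFunc.X ^ (form A d α α / 2))⁻¹ *
        ∑ β ∈ (Finset.Iio α).attach, RatFunc.X ^ (form A d β.1 β.1 / 2) / qfac d (α - β.1) *
          rec β.1 (Finset.mem_Iio.mp β.2))
  have hJ0 : ∀ α, J0 α = if α = 0 then 1 else (1 - RatFunc.X ^ (form A d α α / 2))⁻¹ *
        ∑ β ∈ (Finset.Iio α).attach, RatFunc.X ^ (form A d β.1 β.1 / 2) / qfac d (α - β.1) *
          J0 β.1 := by
    intro α
    exact WellFounded.fix_eq _ _ _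
  have hzero : ∀ J : (Fin n → ℕ) → RatFunc ℚ, J 0 = 1 →
      J 0 = ∑ β ∈ Finset.Iic (0 : Fin n → ℕ),
        RatFunc.X ^ (form A d β β / 2) / qfac d (0 - β) * J β := by
    intro J hJ
    have : Finset.Iic (0 : Fin n → ℕ) = {0} := by
      ext β
      simp [Finset.mem_Iic, Pi.le_def, funext_iff]
    rw [this, Finset.sum_singleton, hJ]
    simp [form, qfac]
  refine ⟨J0, ⟨?_, ?_⟩, ?_⟩
  · rw [hJ0]; simp
  · intro α
    by_cases hα : α = 0
    · subst hα
      exact hzero J0 (by rw [hJ0]; simp)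
    · rw [step J0 α hα, hJ0, if_neg hα]
      congr 1
      exact Finset.sum_attach (Finset.Iio α)
        (fun β => RatFunc.X ^ (form A d β β / 2) / qfac d (α - β) * J0 β)
  · intro J hJ
    funext α
    induction α using WellFoundedLT.induction with
    | ind α ih =>
      by_cases hα : α = 0
      · subst hα
        rw [hJ.1, hJ0]; simp
      · rw [(step J α hα).mp (hJ.2 α), hJ0, if_neg hα]
        congr 1
        rw [← Finset.sum_attach (Finset.Iio α)
          (fun β => RatFunc.X ^ (form A d β β / 2) / qfac d (α - β) * J β)]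
        refine Finset.sum_congr rfl fun β _ => ?_
        rw [ih β.1 (Finset.mem_Iio.mp β.2)]

theorem pos_B (α : Fin 2 → ℕ) (hα : α ≠ 0) : 0 < form (CartanMatrix.B 2) dB α α / 2 := by
  have h : α = ![α 0, α 1] := by
    ext i
    fin_cases i <;> simp
  rw [h, form_B]
  by_cases h0 : α 0 = 0
  · have h1 : α 1 ≠ 0 := by
      intro h1
      apply hα
      ext i
      fin_cases i <;> simp [h0, h1]
    have : (0 : ℤ) < (α 1 : ℤ) := by omega
    rw [h0]
    simp
    positivity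
  · have : (0 : ℤ) < (α 0 : ℤ) := by omega
    positivity

theorem rec_B {J : (Fin 2 → ℕ) → RatFunc ℚ} (hJ : IsJ (CartanMatrix.B 2) dB J) (a b : ℕ) :
    J ![a, b] = ∑ i ∈ Finset.range (a + 1), ∑ j ∈ Finset.range (b + 1),
      RatFunc.X ^ ((i : ℤ) ^ 2 + ((i : ℤ) - j) ^ 2) /
        ((∏ k ∈ Finset.range (a - i), (1 - RatFunc.X ^ (2 * (k + 1)))) *
         (∏ k ∈ Finset.range (b - j), (1 - RatFunc.X ^ (k + 1)))) * J ![i, j] := by
  conv_lhs => rw [hJ.2 ![a, b], sum_Iic]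
  refine Finset.sum_congr rfl fun i _ => Finset.sum_congr rfl fun j _ => ?_
  rw [form_B]
  congr 3
  simp [qfac, Fin.prod_univ_two, dB]

theorem values {J : (Fin 2 → ℕ) → RatFunc ℚ} (hJ : IsJ (CartanMatrix.B 2) dB J) :
    (qfac dB ![2, 2]) ^ 2 * J ![2, 2] = 1 + RatFunc.X + 3 * RatFunc.X ^ 2 + 2 * RatFunc.X ^ 3
      + 5 * RatFunc.X ^ 4 + 2 * RatFunc.X ^ 5 + 3 * RatFunc.X ^ 6 + RatFunc.X ^ 7
      + RatFunc.X ^ 8 := by
  have hX : (RatFunc.X : RatFunc ℚ) ≠ 0 := RatFunc.X_ne_zero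
  have n1 : (1 - RatFunc.X : RatFunc ℚ) ≠ 0 := by simpa using X_pow_ne (k := 1) (by norm_num)
  have n2 := X_pow_ne (k := 2) (by norm_num)
  have n4 := X_pow_ne (k := 4) (by norm_num)
  have n5 := X_pow_ne (k := 5) (by norm_num)
  have n8 := X_pow_ne (k := 8) (by norm_num)
  have r := rec_B hJ
  set q : RatFunc ℚ := RatFunc.X with hq
  have z : ∀ (k : ℕ), q ^ ((k : ℤ)) = q ^ k := fun k => zpow_natCast q k
  have h00 : J ![0, 0] = 1 := by
    have : (![0, 0] : Fin 2 → ℕ) = 0 := by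
      ext i; fin_cases i <;> rfl
    rw [this]; exact hJ.1
  have h01 : J ![0, 1] = 1 / (1 - q) ^ 2 := by
    have e := r 0 1
    simp [Finset.sum_range_succ, Finset.prod_range_succ, h00] at e
    apply mul_right_cancel₀ n1
    field_simp at e ⊢
    linear_combination e
  have h02 : J ![0, 2] = (1) / ((1 - q) * (1 - q ^ 2)) ^ 2 := by
    have e := r 0 2
    simp [Finset.sum_range_succ, Finset.prod_range_succ, h00, h01] at e
    have key : (1 - q ^ 4) * (J ![0, 2] - (1) / ((1 - q) * (1 - q ^ 2)) ^ 2) = 0 := by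
      linear_combination (norm := skip) e
      field_simp
      ring
    exact sub_eq_zero.mp ((mul_eq_zero.mp key).resolve_left n4)
  have h10 : J ![1, 0] = (1) / ((1 - q ^ 2)) ^ 2 := by
    have e := r 1 0
    simp [Finset.sum_range_succ, Finset.prod_range_succ, h00, h01, h02] at e
    have key : (1 - q ^ 2) * (J ![1, 0] - (1) / ((1 - q ^ 2)) ^ 2) = 0 := by
      linear_combination (norm := skip) e
      field_simp
      ring
    exact sub_eq_zero.mp ((mul_eq_zero.mp key).resolve_left n2)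
  have h11 : J ![1, 1] = (1 + q + q ^ 2) / ((1 - q ^ 2) * (1 - q)) ^ 2 := by
    have e := r 1 1
    simp [Finset.sum_range_succ, Finset.prod_range_succ, h00, h01, h02, h10] at e
    have key : (1 - q) * (J ![1, 1] - (1 + q + q ^ 2) / ((1 - q ^ 2) * (1 - q)) ^ 2) = 0 := by
      linear_combination (norm := skip) e
      field_simp
      ring
    exact sub_eq_zero.mp ((mul_eq_zero.mp key).resolve_left n1)
  have h12 : J ![1, 2] = (1 + q + 3 * q ^ 2 + q ^ 3 + q ^ 4) / ((1 - q ^ 2) * (1 - q) * (1 - q ^ 2)) ^ 2 := by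
    have e := r 1 2
    simp [Finset.sum_range_succ, Finset.prod_range_succ, h00, h01, h02, h10, h11] at e
    have key : (1 - q ^ 2) * (J ![1, 2] - (1 + q + 3 * q ^ 2 + q ^ 3 + q ^ 4) / ((1 - q ^ 2) * (1 - q) * (1 - q ^ 2)) ^ 2) = 0 := by
      linear_combination (norm := skip) e
      field_simp
      ring
    exact sub_eq_zero.mp ((mul_eq_zero.mp key).resolve_left n2)
  have h20 : J ![2, 0] = (1) / ((1 - q ^ 2) * (1 - q ^ 4)) ^ 2 := by
    have e := r 2 0
    simp [Finset.sum_range_succ, Finset.prod_range_succ, h00, h01, h02, h10, h11, h12] at e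
    have key : (1 - q ^ 8) * (J ![2, 0] - (1) / ((1 - q ^ 2) * (1 - q ^ 4)) ^ 2) = 0 := by
      linear_combination (norm := skip) e
      field_simp
      ring
    exact sub_eq_zero.mp ((mul_eq_zero.mp key).resolve_left n8)
  have h21 : J ![2, 1] = (1 + q + q ^ 2 + q ^ 3 + q ^ 4) / ((1 - q ^ 2) * (1 - q ^ 4) * (1 - q)) ^ 2 := by
    have e := r 2 1
    simp [Finset.sum_range_succ, Finset.prod_range_succ, h00, h01, h02, h10, h11, h12, h20] at e
    have key : (1 - q ^ 5) * (J ![2, 1] - (1 + q + q ^ 2 + q ^ 3 + q ^ 4) / ((1 - q ^ 2) * (1 - q ^ 4) * (1 - q)) ^ 2) = 0 := by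
      linear_combination (norm := skip) e
      field_simp
      ring
    exact sub_eq_zero.mp ((mul_eq_zero.mp key).resolve_left n5)
  have h22 : J ![2, 2] = (1 + q + 3 * q ^ 2 + 2 * q ^ 3 + 5 * q ^ 4 + 2 * q ^ 5 + 3 * q ^ 6 + q ^ 7 + q ^ 8) / ((1 - q ^ 2) * (1 - q ^ 4) * (1 - q) * (1 - q ^ 2)) ^ 2 := by
    have e := r 2 2
    simp [Finset.sum_range_succ, Finset.prod_range_succ, h00, h01, h02, h10, h11, h12, h20, h21] at e
    have key : (1 - q ^ 4) * (J ![2, 2] - (1 + q + 3 * q ^ 2 + 2 * q ^ 3 + 5 * q ^ 4 + 2 * q ^ 5 + 3 * q ^ 6 + q ^ 7 + q ^ 8) / ((1 - q ^ 2) * (1 - q ^ 4) * (1 - q) * (1 - q ^ 2)) ^ 2) = 0 := by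
      linear_combination (norm := skip) e
      field_simp
      ring
    exact sub_eq_zero.mp ((mul_eq_zero.mp key).resolve_left n4)
  have hq2 : qfac dB ![2, 2] = (1 - q ^ 2) * (1 - q ^ 4) * (1 - q) * (1 - q ^ 2) := by
    simp [qfac, Fin.prod_univ_two, dB, Finset.prod_range_succ, hq]
    ring
  rw [h22, hq2]
  field_simp

/-- the numerator for `α = 2α₁ + 2α₂` in type `B₂` -/
noncomputable def N22 : ℤ[X] :=
  1 + X + 3 * X ^ 2 + 2 * X ^ 3 + 5 * X ^ 4 + 2 * X ^ 5 + 3 * X ^ 6 + X ^ 7 + X ^ 8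

theorem N22_map : algebraMap ℚ[X] (RatFunc ℚ) (N22.map (Int.castRingHom ℚ)) =
    1 + RatFunc.X + 3 * RatFunc.X ^ 2 + 2 * RatFunc.X ^ 3
      + 5 * RatFunc.X ^ 4 + 2 * RatFunc.X ^ 5 + 3 * RatFunc.X ^ 6 + RatFunc.X ^ 7
      + RatFunc.X ^ 8 := by
  have h2 : algebraMap ℚ[X] (RatFunc ℚ) 2 = 2 := map_ofNat _ 2
  have h3 : algebraMap ℚ[X] (RatFunc ℚ) 3 = 3 := map_ofNat _ 3
  have h5 : algebraMap ℚ[X] (RatFunc ℚ) 5 = 5 := map_ofNat _ 5
  simp [N22, RatFunc.algebraMap_X, h2, h3, h5]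

theorem N22_2 : N22.coeff 2 = 3 := by
  simp [N22, coeff_X, coeff_one, coeff_X_pow, coeff_ofNat_mul]

theorem N22_3 : N22.coeff 3 = 2 := by
  simp [N22, coeff_X, coeff_one, coeff_X_pow, coeff_ofNat_mul]

theorem N22_4 : N22.coeff 4 = 5 := by
  simp [N22, coeff_X, coeff_one, coeff_X_pow, coeff_ofNat_mul]

/-- In type `B₂` (Cartan matrix `CartanMatrix.B 2`, half-lengths `d = (2, 1)` of the simple
roots) there is exactly one family `𝔍`, and for `α = 2α₁ + 2α₂` the element `(q)_α² 𝔍_α` is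
an integer polynomial `N` with `c₃ < min(c₂, c₄)`, so it is not unimodal. -/
theorem result :
    (∀ i j, CartanMatrix.B 2 i j * (dB j : ℤ) = CartanMatrix.B 2 j i * (dB i : ℤ)) ∧
    (∀ i, 1 ≤ dB i) ∧ (∃ i, dB i = 1) ∧
    (∃! J : (Fin 2 → ℕ) → RatFunc ℚ, IsJ (CartanMatrix.B 2) dB J) ∧
    ∀ J : (Fin 2 → ℕ) → RatFunc ℚ, IsJ (CartanMatrix.B 2) dB J →
      ∃ N : ℤ[X], algebraMap ℚ[X] (RatFunc ℚ) (N.map (Int.castRingHom ℚ)) =
          (qfac dB ![2, 2]) ^ 2 * J ![2, 2] ∧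
        (∃ i j k : ℕ, i < j ∧ j < k ∧ N.coeff j < min (N.coeff i) (N.coeff k)) ∧
        ¬ Unimodal N := by
  refine ⟨?_, ?_, ⟨1, rfl⟩, exists_unique_J _ _ pos_B, ?_⟩
  · intro i j
    fin_cases i <;> fin_cases j <;> simp [CartanMatrix.B, dB]
  · intro i
    fin_cases i <;> simp [dB]
  · intro J hJ
    refine ⟨N22, ?_, ⟨2, 3, 4, by norm_num, by norm_num, ?_⟩, ?_⟩
    · rw [N22_map, values hJ]
    · rw [N22_2, N22_3, N22_4]; norm_num
    · rintro ⟨m, h1, h2⟩
      have hdeg : 4 ≤ N22.natDegree := le_natDegree_of_ne_zero (by rw [N22_4]; norm_num)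
      rcases le_or_gt m 3 with hm | hm
      · have := h2 3 4 hm (by norm_num) hdeg
        rw [N22_3, N22_4] at this
        norm_num at this
      · have := h1 2 3 (by norm_num) hm.le
        rw [N22_2, N22_3] at this
        norm_num at this

end Pool.Agent.Results.MP_4223bd_al.NotUnimodalB2
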